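import Pool.Agent.N513.Ray.Elliptic

/-! The Smale horseshoe fixes a vertex of the ray graph: it is elliptic and not loxodromic. -/

set_option autoImplicit false

open Pool.Agent.N513.Ray Topology Filter

namespace Pool.Agent.Results.MP_f98b29_gt.HorseshoeElliptic

/-- Horseshoe maps exist, and every horseshoe map `f` fixes the isotopy class of a ray from infinity
to the invariant set `Λ`; so all its orbits on the vertices of the ray graph of `Λ` connected to
this vertex are bounded (with an explicit bound), its stable translation length is zero and it is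
not loxodromic. -/
theorem result : (∃ (p : Params) (f : ℂ ≃ₜ ℂ), IsHorseshoe p f) ∧
    ∀ (p : Params) (f : ℂ ≃ₜ ℂ), IsHorseshoe p f →
      (∃ v : RayClass (Lam f), act (Lam f) (horseshoeStab f) v = v ∧
        ∀ w : RayClass (Lam f), (rayGraph (Lam f)).Reachable v w →
          (∀ n : ℕ, (rayGraph (Lam f)).Reachable w ((act (Lam f) (horseshoeStab f))^[n] w) ∧
            (rayGraph (Lam f)).dist w ((act (Lam f) (horseshoeStab f))^[n] w) ≤
              2 * (rayGraph (Lam f)).dist v w) ∧
          Tendsto (fun n : ℕ => ((rayGraph (Lam f)).dist w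
            ((act (Lam f) (horseshoeStab f))^[n] w) : ℝ) / n) atTop (𝓝 0)) ∧
      ¬ IsLoxodromic (rayGraph (Lam f)) (act (Lam f) (horseshoeStab f)) := by
  refine ⟨⟨pStd, horse, isHorseshoe_horse⟩, fun p f hf => ?_⟩
  have hfix := fixed_class hf
  set v := toClass (Lam f) (ray hf 1 one_pos) with hv
  refine ⟨⟨v, hfix, fun w hw => ?_⟩, fun h => ?_⟩
  · have hb : ∀ n : ℕ, (rayGraph (Lam f)).Reachable w ((act (Lam f) (horseshoeStab f))^[n] w) ∧
        (rayGraph (Lam f)).dist w ((act (Lam f) (horseshoeStab f))^[n] w) ≤
          2 * (rayGraph (Lam f)).dist v w :=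
      fun n => orbit_bounded (actHom (Lam f) (horseshoeStab f)) hfix hw n
    refine ⟨hb, ?_⟩
    have h1 : Tendsto (fun n : ℕ => ((2 * (rayGraph (Lam f)).dist v w : ℕ) : ℝ) / n) atTop
        (𝓝 0) := tendsto_const_div_atTop_nhds_zero_nat _
    refine squeeze_zero (fun n => by positivity) (fun n => ?_) h1
    exact div_le_div_of_nonneg_right (by exact_mod_cast (hb n).2) (Nat.cast_nonneg n)
  · obtain ⟨τ, hτ, hlim⟩ := h v
    have hc : ∀ n : ℕ, (act (Lam f) (horseshoeStab f))^[n] v = v := by
      intro n
      induction n with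
      | zero => rfl
      | succ n ih => rw [Function.iterate_succ_apply, hfix, ih]
    have h0 : Tendsto (fun _ : ℕ => (0 : ℝ)) atTop (𝓝 τ) := by
      refine hlim.congr fun n => ?_
      rw [hc n, SimpleGraph.dist_self, Nat.cast_zero, zero_div]
    have := tendsto_nhds_unique h0 tendsto_const_nhds
    linarith

end Pool.Agent.Results.MP_f98b29_gt.HorseshoeElliptic
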